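import Pool.Agent.H90.RG.Targets2

/-! Row G_EPS of the board reg_modules: regularity for small energy. -/

set_option autoImplicit false

namespace Pool.Agent.H60.RG

open MeasureTheory Metric Set Filter Topology Pool.Agent.H87.SN Pool.Agent.H90.RG
open Pool.Agent.H14.RG (IsClosedSubmanifold row)
open scoped ContDiff RealInnerProductSpace ENNReal

noncomputable section

theorem pf_EPS (hR : T_ROW) (hY : T_SYH) (hO : T_SOH) (hM : T_MNS) (h1 : Pool.Agent.H87.SN.T_ST1)
    (hI : Pool.Agent.H48.RG.T_ITE) (hS : Pool.Agent.H48.RG.T_SRS) (hE : Pool.Agent.H86.RG.T_E) :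
    T_EPS := by
  intro d m k N A hN hA
  obtain ⟨K, hK0, hK⟩ := hY m k N A hN hA
  obtain ⟨K', -, hK'⟩ := hO m k N A hN hA
  obtain ⟨ε, C, hε, hC, hC'⟩ := hI (d + 2) m K (by omega) hK0
  refine ⟨ε, hε, ?_⟩
  intro u G hu hsmall
  have hG := hu.w12.memLp_deriv
  have hst : Stat1 G := h1 (d + 2) m G hG (fun X hX => hu.stationary X hX)
  obtain ⟨Om, hOm⟩ := hK (d + 2) u G hu
  have hsys := hS (d + 2) m K 0 0 2 1 _ _ Om hOm (ball_subset_ball (by norm_num))
  obtain ⟨hrow, -, hrowL⟩ := hR (d + 2) m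
  have hG2 : ∀ j, MemLp (fun x => row (G x) j) 2 (volume.restrict (ball (0 : E (d + 2)) 2)) :=
    fun j => hrowL G _ j hG
  have hG2' : ∀ (y : E (d + 2)) (s : ℝ), ball y s ⊆ ball 0 2 → ∀ j,
      MemLp (fun x => row (G x) j) 2 (volume.restrict (ball y s)) :=
    fun y s hs j => (hG2 j).mono_measure (Measure.restrict_mono hs le_rfl)
  have hsum : ∀ (y : E (d + 2)) (s : ℝ), ball y s ⊆ ball 0 2 →
      ∑ j, ∫ x in ball y s, ‖row (G x) j‖ ^ 2 = ∫ x in ball y s, nsq (G x) := by
    intro y s hs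
    rw [← integral_finset_sum _ fun j _ => (hG2' y s hs j).integrable_norm_pow (p := 2) (by norm_num)]
    exact integral_congr_ae (Eventually.of_forall fun x => (hrow (G x)).1)
  have h12 : ball (0 : E (d + 2)) 1 ⊆ ball 0 2 := ball_subset_ball (by norm_num)
  have hen : ∀ (y : E (d + 2)) (s : ℝ), 0 < s → ball y s ⊆ ball 0 1 →
      ∑ j, ∫ x in ball y s, ‖row (G x) j‖ ^ 2 ≤ ε * (s ^ (d + 2) / s ^ 2) := by
    intro y s hs hsub
    have h2 := hM d m G hG hst 0 1 one_pos (by rw [mul_one]) y s hs hsub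
    rw [one_pow, one_mul, mul_one] at h2
    rw [hsum y s (hsub.trans h12)]
    have h3 : s ^ (d + 2) / s ^ 2 = s ^ d := by
      rw [pow_add, mul_div_assoc, div_self (pow_ne_zero 2 hs.ne'), mul_one]
    rw [h3, mul_comm ε]
    exact h2.trans (mul_le_mul_of_nonneg_left hsmall.le (pow_nonneg hs.le d))
  have hdec := hC' 0 1 _ _ Om one_pos hsys hen
  have h21 : ball (0 : E (d + 2)) (2 * (1 / 2)) ⊆ ball 0 2 := ball_subset_ball (by norm_num)
  obtain ⟨hs1, hs2, hs3⟩ := hK' (d + 2) u G hu (2 * (1 / 2)) (by norm_num)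
  obtain ⟨u', r, hr, hr1, hu1, hu2⟩ := hE (d + 2) m N u (fun k x => row (G x) k) (ff A u G) 0
    (1 / 2) K' (m * C) (by omega) (by norm_num) hN.compact.isClosed hs1
    (ae_restrict_of_ae_restrict_of_subset h21 hu.mem) hs2 hs3 (by
      intro x hx r hr hr1
      have hsub : ball x r ⊆ ball 0 2 := by
        intro z hz
        rw [mem_ball, dist_zero_right] at hx ⊢
        rw [mem_ball, dist_eq_norm] at hz
        have h5 : ‖z‖ ≤ ‖z - x‖ + ‖x‖ := by
          have := norm_add_le (z - x) x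
          rwa [sub_add_cancel] at this
        linarith
      have hint : ∀ j ∈ (Finset.univ : Finset (Fin m)),
          Integrable (fun y => ‖row (G y) j‖) (volume.restrict (ball x r)) := by
        intro j _
        haveI : IsFiniteMeasure (volume.restrict (ball x r)) :=
          ⟨by rw [Measure.restrict_apply_univ]; exact measure_ball_lt_top⟩
        exact ((hG2' x r hsub j).integrable (by norm_num)).norm
      rw [integral_finset_sum _ hint]
      have h6 : r ^ (((d + 2 : ℕ) : ℝ) - 1 + 3 / 4) = r ^ (3 / 4 : ℝ) * r ^ (d + 1) := by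
        rw [show (((d + 2 : ℕ) : ℝ) - 1 + 3 / 4) = 3 / 4 + ((d + 1 : ℕ) : ℝ) by push_cast; ring,
          Real.rpow_add hr, Real.rpow_natCast]
      rw [h6]
      calc ∑ j, ∫ y in ball x r, ‖row (G y) j‖
          ≤ ∑ _j : Fin m, C * (r ^ (3 / 4 : ℝ) * r ^ (d + 1)) := by
            refine Finset.sum_le_sum fun j _ => ?_
            have h7 := hdec j x hx r hr hr1
            rw [div_one, mul_assoc] at h7
            exact h7
        _ = m * C * (r ^ (3 / 4 : ℝ) * r ^ (d + 1)) := by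
            rw [Finset.sum_const, Finset.card_univ, Fintype.card_fin, nsmul_eq_mul, mul_assoc])
  exact ⟨r, hr, ball_subset_ball (by linarith), u', hu2, hu1⟩

end

end Pool.Agent.H60.RG
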